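import Mathlib

set_option autoImplicit false

namespace Pool.Agent.Results.MP_ae2f9f_co.LeastSize

/-- The graph of all cells of the square grid. The cell `[a,a+1] × [b,b+1]` is named by `(a,b)`.
Two cells are adjacent exactly when they share a side. -/
def cellGraph : SimpleGraph (ℤ × ℤ) where
  Adj c d := (c.1 = d.1 ∧ |c.2 - d.2| = 1) ∨ (c.2 = d.2 ∧ |c.1 - d.1| = 1)
  symm := ⟨fun c d h => by
    rcases h with ⟨h1, h2⟩ | ⟨h1, h2⟩
    · exact Or.inl ⟨h1.symm, by rw [abs_sub_comm]; exact h2⟩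
    · exact Or.inr ⟨h1.symm, by rw [abs_sub_comm]; exact h2⟩⟩
  loopless := ⟨fun c h => by simp at h⟩

/-- A finite set of cells is a polyomino when it is nonempty and connected under
edge-adjacency (`SimpleGraph.Connected` contains nonemptiness). -/
def IsPolyomino (P : Finset (ℤ × ℤ)) : Prop :=
  (cellGraph.induce (P : Set (ℤ × ℤ))).Connected

/-- The row of `P` at height `b`, given by the set of the `a`-coordinates of its cells. -/
def row (P : Finset (ℤ × ℤ)) (b : ℤ) : Set ℤ := {a | (a, b) ∈ P}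

/-- The column of `P` at abscissa `a`, given by the set of the `b`-coordinates of its cells. -/
def column (P : Finset (ℤ × ℤ)) (a : ℤ) : Set ℤ := {b | (a, b) ∈ P}

/-- Property (S): no nonempty row and no nonempty column is a single strip, that is, none of
these sets of coordinates is an interval of integers (`Set.OrdConnected`). -/
def PropertyS (P : Finset (ℤ × ℤ)) : Prop :=
  (∀ b, (row P b).Nonempty → ¬ (row P b).OrdConnected) ∧
  (∀ a, (column P a).Nonempty → ¬ (column P a).OrdConnected)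

/-! ### Preliminaries -/

/-- A set of integers that is not order connected has a gap. -/
lemma exists_gap {s : Set ℤ} (h : ¬ s.OrdConnected) :
    ∃ x y z : ℤ, x < y ∧ y < z ∧ x ∈ s ∧ y ∉ s ∧ z ∈ s := by
  rw [Set.ordConnected_iff] at h
  push Not at h
  obtain ⟨x, hx, z, hz, -, h⟩ := h
  rw [Set.not_subset] at h
  obtain ⟨y, ⟨hxy, hyz⟩, hy⟩ := h
  refine ⟨x, y, z, lt_of_le_of_ne hxy ?_, lt_of_le_of_ne hyz ?_, hx, hy, hz⟩
  · rintro rfl; exact hy hx
  · rintro rfl; exact hy hz

lemma not_ordConnected_of_gap {s : Set ℤ} {x y z : ℤ} (h1 : x < y) (h2 : y < z) (hx : x ∈ s)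
    (hy : y ∉ s) (hz : z ∈ s) : ¬ s.OrdConnected := fun h =>
  hy (h.out hx hz ⟨h1.le, h2.le⟩)

/-- The combinatorial data used for the lower bound. -/
structure Data (P : Finset (ℤ × ℤ)) : Prop where
  nonempty : P.Nonempty
  rowGap : ∀ b ∈ P.image Prod.snd, ∃ x y z : ℤ, x < y ∧ y < z ∧ (x, b) ∈ P ∧ (y, b) ∉ P ∧ (z, b) ∈ P
  colGap : ∀ a ∈ P.image Prod.fst, ∃ x y z : ℤ, x < y ∧ y < z ∧ (a, x) ∈ P ∧ (a, y) ∉ P ∧ (a, z) ∈ P
  rowInt : ∀ x y z : ℤ, x < y → y < z → x ∈ P.image Prod.snd → z ∈ P.image Prod.snd →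
    y ∈ P.image Prod.snd
  colInt : ∀ x y z : ℤ, x < y → y < z → x ∈ P.image Prod.fst → z ∈ P.image Prod.fst →
    y ∈ P.image Prod.fst
  edges : P.card ≤ (P.filter (fun c => (c.1 + 1, c.2) ∈ P)).card
    + (P.filter (fun c => (c.1, c.2 + 1) ∈ P)).card + 1

lemma reachable_lt {P : Finset (ℤ × ℤ)} {f : ℤ × ℤ → ℤ}
    (hf : ∀ c d : ℤ × ℤ, cellGraph.Adj c d → |f c - f d| ≤ 1) {m : ℤ}
    (hm : ∀ c ∈ P, f c ≠ m) {u v : (P : Set (ℤ × ℤ))}
    (h : (cellGraph.induce (P : Set (ℤ × ℤ))).Reachable u v) (hu : f u.1 < m) : f v.1 < m := by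
  rw [SimpleGraph.reachable_iff_reflTransGen] at h
  induction h with
  | refl => exact hu
  | @tail b c _ hbc ih =>
    have h1 := hf _ _ (SimpleGraph.induce_adj.mp hbc)
    have h2 := hm c.1 c.2
    rw [abs_le] at h1
    omega

lemma adj_fst {c d : ℤ × ℤ} (h : cellGraph.Adj c d) : |c.1 - d.1| ≤ 1 := by
  rcases h with ⟨h1, h2⟩ | ⟨h1, h2⟩
  · rw [h1]; simp
  · exact h2.le

lemma adj_snd {c d : ℤ × ℤ} (h : cellGraph.Adj c d) : |c.2 - d.2| ≤ 1 := by
  rcases h with ⟨h1, h2⟩ | ⟨h1, h2⟩
  · exact h2.le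
  · rw [h1]; simp

lemma intermediate {P : Finset (ℤ × ℤ)} (hP : IsPolyomino P) {f : ℤ × ℤ → ℤ}
    (hf : ∀ c d : ℤ × ℤ, cellGraph.Adj c d → |f c - f d| ≤ 1) (x y z : ℤ) (hxy : x < y)
    (hyz : y < z) (hx : x ∈ P.image f) (hz : z ∈ P.image f) : y ∈ P.image f := by
  by_contra hy
  rw [Finset.mem_image] at hx hz hy
  push Not at hy
  obtain ⟨c, hc, rfl⟩ := hx
  obtain ⟨d, hd, rfl⟩ := hz
  have h := hP.preconnected ⟨c, hc⟩ ⟨d, hd⟩
  have := reachable_lt hf hy h hxy
  exact absurd this (not_lt.mpr hyz.le)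

lemma edge_count {P : Finset (ℤ × ℤ)} (hP : IsPolyomino P) :
    P.card ≤ (P.filter (fun c => (c.1 + 1, c.2) ∈ P)).card
      + (P.filter (fun c => (c.1, c.2 + 1) ∈ P)).card + 1 := by
  classical
  set H := P.filter (fun c => (c.1 + 1, c.2) ∈ P) with hH
  set V := P.filter (fun c => (c.1, c.2 + 1) ∈ P) with hV
  have h1 := hP.card_vert_le_card_edgeSet_add_one
  have hcard : Nat.card (P : Set (ℤ × ℤ)) = P.card := by simp
  rw [hcard] at h1
  have adjH : ∀ c : ℤ × ℤ, cellGraph.Adj c (c.1 + 1, c.2) := fun c =>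
    Or.inr ⟨rfl, by simp⟩
  have adjV : ∀ c : ℤ × ℤ, cellGraph.Adj c (c.1, c.2 + 1) := fun c =>
    Or.inl ⟨rfl, by simp⟩
  let G := cellGraph.induce (P : Set (ℤ × ℤ))
  let f : (H ⊕ V) → G.edgeSet := fun s => match s with
    | Sum.inl c => ⟨s(⟨c.1, (Finset.mem_filter.mp c.2).1⟩, ⟨(c.1.1 + 1, c.1.2), (Finset.mem_filter.mp c.2).2⟩),
        by
          rw [SimpleGraph.mem_edgeSet]
          exact adjH c.1⟩
    | Sum.inr c => ⟨s(⟨c.1, (Finset.mem_filter.mp c.2).1⟩, ⟨(c.1.1, c.1.2 + 1), (Finset.mem_filter.mp c.2).2⟩),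
        by
          rw [SimpleGraph.mem_edgeSet]
          exact adjV c.1⟩
  have hf : Function.Surjective f := by
    rintro ⟨e, he⟩
    induction e with
    | h u v =>
      have huv : cellGraph.Adj u.1 v.1 := he
      obtain ⟨⟨u1, u2⟩, hu⟩ := u
      obtain ⟨⟨v1, v2⟩, hv⟩ := v
      rcases huv with ⟨h1, h2⟩ | ⟨h1, h2⟩
      · simp only at h1 h2
        subst h1
        rw [abs_eq one_pos.le] at h2
        rcases h2 with h2 | h2
        · have : u2 = v2 + 1 := by omega
          subst this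
          refine ⟨Sum.inr ⟨(u1, v2), Finset.mem_filter.mpr ⟨hv, hu⟩⟩, ?_⟩
          simp only [f]
          apply Subtype.ext
          exact Sym2.eq_swap
        · have : v2 = u2 + 1 := by omega
          subst this
          refine ⟨Sum.inr ⟨(u1, u2), Finset.mem_filter.mpr ⟨hu, hv⟩⟩, ?_⟩
          simp only [f]
      · simp only at h1 h2
        subst h1
        rw [abs_eq one_pos.le] at h2
        rcases h2 with h2 | h2
        · have : u1 = v1 + 1 := by omega
          subst this
          refine ⟨Sum.inl ⟨(v1, u2), Finset.mem_filter.mpr ⟨hv, hu⟩⟩, ?_⟩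
          simp only [f]
          apply Subtype.ext
          exact Sym2.eq_swap
        · have : v1 = u1 + 1 := by omega
          subst this
          refine ⟨Sum.inl ⟨(u1, u2), Finset.mem_filter.mpr ⟨hu, hv⟩⟩, ?_⟩
          simp only [f]
  have h2 := Nat.card_le_card_of_surjective f hf
  have h3 : Nat.card (H ⊕ V) = H.card + V.card := by
    rw [Nat.card_sum]; simp
  have h4 : Nat.card G.edgeSet ≤ H.card + V.card := h3 ▸ h2
  exact h1.trans (by simpa [G] using h4)

lemma data_of {P : Finset (ℤ × ℤ)} (hP : IsPolyomino P) (hS : PropertyS P) : Data P where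
  nonempty := by
    obtain ⟨c⟩ := hP.nonempty
    exact ⟨c.1, c.2⟩
  rowGap b hb := by
    rw [Finset.mem_image] at hb
    obtain ⟨c, hc, rfl⟩ := hb
    exact exists_gap (hS.1 c.2 ⟨c.1, hc⟩)
  colGap a ha := by
    rw [Finset.mem_image] at ha
    obtain ⟨c, hc, rfl⟩ := ha
    exact exists_gap (hS.2 c.1 ⟨c.2, hc⟩)
  rowInt := intermediate hP (fun _ _ => adj_snd)
  colInt := intermediate hP (fun _ _ => adj_fst)
  edges := edge_count hP

lemma Data.swap {P : Finset (ℤ × ℤ)} (h : Data P) : Data (P.image Prod.swap) := by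
  have hmem : ∀ a b : ℤ, (a, b) ∈ P.image Prod.swap ↔ (b, a) ∈ P := by
    intro a b
    simp
  have h1 : (P.image Prod.swap).image Prod.fst = P.image Prod.snd := by
    rw [Finset.image_image]; rfl
  have h2 : (P.image Prod.swap).image Prod.snd = P.image Prod.fst := by
    rw [Finset.image_image]; rfl
  refine ⟨h.nonempty.image _, ?_, ?_, ?_, ?_, ?_⟩
  · intro b hb
    rw [h2] at hb
    simp only [hmem]
    exact h.colGap b hb
  · intro b hb
    rw [h1] at hb
    simp only [hmem]
    exact h.rowGap b hb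
  · rw [h2]; exact h.colInt
  · rw [h1]; exact h.rowInt
  · have e1 : ((P.image Prod.swap).filter (fun c => (c.1 + 1, c.2) ∈ P.image Prod.swap)).card
        = (P.filter (fun c => (c.1, c.2 + 1) ∈ P)).card := by
      have : ((P.image Prod.swap).filter (fun c => (c.1 + 1, c.2) ∈ P.image Prod.swap))
        = (P.filter (fun c => (c.1, c.2 + 1) ∈ P)).image Prod.swap := by
        ext ⟨a, b⟩
        rw [Finset.mem_filter, hmem, hmem, Finset.mem_image]
        constructor
        · rintro ⟨h1, h2⟩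
          exact ⟨(b, a), Finset.mem_filter.mpr ⟨h1, h2⟩, rfl⟩
        · rintro ⟨⟨c, d⟩, h1, h2⟩
          rw [Finset.mem_filter] at h1
          simp only [Prod.swap_prod_mk, Prod.mk.injEq] at h2
          obtain ⟨rfl, rfl⟩ := h2
          exact h1
      rw [this, Finset.card_image_of_injective _ Prod.swap_injective]
    have e2 : ((P.image Prod.swap).filter (fun c => (c.1, c.2 + 1) ∈ P.image Prod.swap)).card
        = (P.filter (fun c => (c.1 + 1, c.2) ∈ P)).card := by
      have : ((P.image Prod.swap).filter (fun c => (c.1, c.2 + 1) ∈ P.image Prod.swap))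
        = (P.filter (fun c => (c.1 + 1, c.2) ∈ P)).image Prod.swap := by
        ext ⟨a, b⟩
        rw [Finset.mem_filter, hmem, hmem, Finset.mem_image]
        constructor
        · rintro ⟨h1, h2⟩
          exact ⟨(b, a), Finset.mem_filter.mpr ⟨h1, h2⟩, rfl⟩
        · rintro ⟨⟨c, d⟩, h1, h2⟩
          rw [Finset.mem_filter] at h1
          simp only [Prod.swap_prod_mk, Prod.mk.injEq] at h2
          obtain ⟨rfl, rfl⟩ := h2
          exact h1
      rw [this, Finset.card_image_of_injective _ Prod.swap_injective]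
    rw [e1, e2, Finset.card_image_of_injective _ Prod.swap_injective]
    have := h.edges
    omega

/-- Right ends of blocks: at least two in each nonempty row. -/
lemma Data.rightEnds {P : Finset (ℤ × ℤ)} (h : Data P) :
    (P.filter (fun c => (c.1 + 1, c.2) ∈ P)).card + 2 * (P.image Prod.snd).card ≤ P.card := by
  classical
  have h0 := Finset.card_filter_add_card_filter_not (s := P) (fun c => (c.1 + 1, c.2) ∈ P)
  have h1 : ∀ b ∈ P.image Prod.snd,
      2 ≤ ((P.filter (fun c => ¬ (c.1 + 1, c.2) ∈ P)).filter (fun c => c.2 = b)).card := by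
    intro b hb
    obtain ⟨x, y, z, hxy, hyz, hx, hy, hz⟩ := h.rowGap b hb
    -- the cells of the row
    let R : Finset ℤ := (P.filter (fun c => c.2 = b)).image Prod.fst
    have hR : ∀ a, a ∈ R ↔ (a, b) ∈ P := by
      intro a
      simp only [R, Finset.mem_image, Finset.mem_filter]
      constructor
      · rintro ⟨⟨c, d⟩, ⟨h1, h2⟩, h3⟩
        simp only at h2 h3
        subst h2 h3
        exact h1
      · intro ha
        exact ⟨(a, b), ⟨ha, rfl⟩, rfl⟩
    have n1 : (R.filter (fun a => a < y)).Nonempty :=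
      ⟨x, Finset.mem_filter.mpr ⟨(hR x).mpr hx, hxy⟩⟩
    have n2 : R.Nonempty := ⟨z, (hR z).mpr hz⟩
    set m1 := (R.filter (fun a => a < y)).max' n1 with hm1
    set m2 := R.max' n2 with hm2
    have hm1' := Finset.max'_mem _ n1
    rw [← hm1, Finset.mem_filter, hR] at hm1'
    have hm2' := Finset.max'_mem _ n2
    rw [← hm2, hR] at hm2'
    have hzm : z ≤ m2 := Finset.le_max' _ _ ((hR z).mpr hz)
    have e1 : (m1 + 1, b) ∉ P := by
      intro hc
      by_cases hlt : m1 + 1 < y
      · have : m1 + 1 ≤ m1 := Finset.le_max' _ _ (Finset.mem_filter.mpr ⟨(hR _).mpr hc, hlt⟩)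
        omega
      · have : m1 + 1 = y := by omega
        rw [this] at hc
        exact hy hc
    have e2 : (m2 + 1, b) ∉ P := by
      intro hc
      have : m2 + 1 ≤ m2 := Finset.le_max' _ _ ((hR _).mpr hc)
      omega
    have hne : (m1, b) ≠ (m2, b) := by
      intro hc
      rw [Prod.mk.injEq] at hc
      omega
    have hsub : ({(m1, b), (m2, b)} : Finset (ℤ × ℤ)) ⊆
        ((P.filter (fun c => ¬ (c.1 + 1, c.2) ∈ P)).filter (fun c => c.2 = b)) := by
      intro c hc
      rw [Finset.mem_insert, Finset.mem_singleton] at hc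
      rw [Finset.mem_filter, Finset.mem_filter]
      rcases hc with rfl | rfl
      · exact ⟨⟨hm1'.1, e1⟩, rfl⟩
      · exact ⟨⟨hm2', e2⟩, rfl⟩
    calc 2 = ({(m1, b), (m2, b)} : Finset (ℤ × ℤ)).card := (Finset.card_pair hne).symm
      _ ≤ _ := Finset.card_le_card hsub
  have h2 : (P.filter (fun c => ¬ (c.1 + 1, c.2) ∈ P)).card
      = ∑ b ∈ P.image Prod.snd,
        ((P.filter (fun c => ¬ (c.1 + 1, c.2) ∈ P)).filter (fun c => c.2 = b)).card := by
    apply Finset.card_eq_sum_card_fiberwise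
    intro c hc
    have hc' := Finset.mem_of_mem_filter c hc
    exact Finset.mem_coe.mpr (Finset.mem_image_of_mem _ hc')
  have h3 : (P.image Prod.snd).card * 2 ≤ ∑ b ∈ P.image Prod.snd,
        ((P.filter (fun c => ¬ (c.1 + 1, c.2) ∈ P)).filter (fun c => c.2 = b)).card := by
    have := Finset.card_nsmul_le_sum (P.image Prod.snd) (fun b =>
        ((P.filter (fun c => ¬ (c.1 + 1, c.2) ∈ P)).filter (fun c => c.2 = b)).card) 2 h1
    simpa [smul_eq_mul] using this
  omega

lemma Data.missing {P : Finset (ℤ × ℤ)} (h : Data P) :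
    P.card + (P.image Prod.fst).card + 2 ≤ (P.image Prod.fst).card * (P.image Prod.snd).card := by
  classical
  set C := P.image Prod.fst with hC
  set R := P.image Prod.snd with hR
  have hPC : ∀ a b, (a, b) ∈ P → a ∈ C := fun a b hab => Finset.mem_image_of_mem Prod.fst hab
  have hPR : ∀ a b, (a, b) ∈ P → b ∈ R := fun a b hab => Finset.mem_image_of_mem Prod.snd hab
  have hRn : R.Nonempty := h.nonempty.image _
  set y0 := R.min' hRn with hy0
  set y1 := R.max' hRn with hy1
  have hmin : ∀ b ∈ R, y0 ≤ b := fun b hb => Finset.min'_le _ _ hb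
  have hmax : ∀ b ∈ R, b ≤ y1 := fun b hb => Finset.le_max' _ _ hb
  have hy0m : y0 ∈ R := Finset.min'_mem _ _
  have hy1m : y1 ∈ R := Finset.max'_mem _ _
  have hcol : ∀ a ∈ C, ∃ b, y0 < b ∧ b < y1 ∧ b ∈ R ∧ (a, b) ∉ P := by
    intro a ha
    obtain ⟨x, y, z, hxy, hyz, hx, hy, hz⟩ := h.colGap a ha
    have hxR := hPR _ _ hx
    have hzR := hPR _ _ hz
    exact ⟨y, lt_of_le_of_lt (hmin _ hxR) hxy, lt_of_lt_of_le hyz (hmax _ hzR),
      h.rowInt x y z hxy hyz hxR hzR, hy⟩
  have hrow : ∀ b ∈ R, ∃ a, a ∈ C ∧ (a, b) ∉ P := by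
    intro b hb
    obtain ⟨x, y, z, hxy, hyz, hx, hy, hz⟩ := h.rowGap b hb
    exact ⟨y, h.colInt x y z hxy hyz (hPC _ _ hx) (hPC _ _ hz), hy⟩
  choose! g hg using hcol
  obtain ⟨p, hp, hp'⟩ := hrow y0 hy0m
  obtain ⟨q, hq, hq'⟩ := hrow y1 hy1m
  have hlt : y0 < y1 := (hg p hp).1.trans (hg p hp).2.1
  set I := C.image (fun a => (a, g a)) with hI
  have hIc : I.card = C.card := by
    rw [hI]
    apply Finset.card_image_of_injective
    intro a b hab
    simp only [Prod.mk.injEq] at hab
    exact hab.1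
  have hIm : ∀ c ∈ I, y0 < c.2 ∧ c.2 < y1 ∧ c ∈ C ×ˢ R ∧ c ∉ P := by
    intro c hc
    rw [hI, Finset.mem_image] at hc
    obtain ⟨a, ha, rfl⟩ := hc
    obtain ⟨g1, g2, g3, g4⟩ := hg a ha
    exact ⟨g1, g2, Finset.mem_product.mpr ⟨ha, g3⟩, g4⟩
  have h1 : (p, y0) ∉ I := fun hc => lt_irrefl _ (hIm _ hc).1
  have h2 : (q, y1) ∉ insert (p, y0) I := by
    intro hc
    rw [Finset.mem_insert] at hc
    rcases hc with hc | hc
    · rw [Prod.mk.injEq] at hc
      omega
    · exact lt_irrefl _ (hIm _ hc).2.1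
  have hcard : (insert (q, y1) (insert (p, y0) I)).card = C.card + 2 := by
    rw [Finset.card_insert_of_notMem h2, Finset.card_insert_of_notMem h1, hIc]
  have hdisj : Disjoint P (insert (q, y1) (insert (p, y0) I)) := by
    rw [Finset.disjoint_right]
    intro c hc
    rw [Finset.mem_insert, Finset.mem_insert] at hc
    rcases hc with rfl | rfl | hc
    · exact hq'
    · exact hp'
    · exact (hIm _ hc).2.2.2
  have hsub : P ∪ (insert (q, y1) (insert (p, y0) I)) ⊆ C ×ˢ R := by
    intro c hc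
    rw [Finset.mem_union, Finset.mem_insert, Finset.mem_insert] at hc
    rcases hc with hc | rfl | rfl | hc
    · exact Finset.mem_product.mpr ⟨hPC _ _ hc, hPR _ _ hc⟩
    · exact Finset.mem_product.mpr ⟨hq, hy1m⟩
    · exact Finset.mem_product.mpr ⟨hp, hy0m⟩
    · exact (hIm _ hc).2.2.1
  have := Finset.card_le_card hsub
  rw [Finset.card_union_of_disjoint hdisj, hcard, Finset.card_product] at this
  omega

lemma arith (n w h H V : ℕ) (hedge : n ≤ H + V + 1) (hH : H + 2 * h ≤ n) (hV : V + 2 * w ≤ n)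
    (h1 : n + w + 2 ≤ w * h) (h2 : n + h + 2 ≤ h * w) : 21 ≤ n := by
  by_contra hn
  have hn' : n ≤ 20 := by omega
  have hwh : w + h ≤ 10 := by omega
  have hw : w ≤ 10 := by omega
  have hh : h ≤ 10 := by omega
  interval_cases w <;> interval_cases h <;> omega

/-- Lower bound: a polyomino with property (S) has at least 21 cells. -/
theorem lower {P : Finset (ℤ × ℤ)} (hP : IsPolyomino P) (hS : PropertyS P) : 21 ≤ P.card := by
  have d := data_of hP hS
  have d' := d.swap
  have h1 := d.rightEnds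
  have h2 := d'.rightEnds
  have h3 := d.missing
  have h4 := d'.missing
  have e0 : (P.image Prod.swap).card = P.card :=
    Finset.card_image_of_injective _ Prod.swap_injective
  have e1 : (P.image Prod.swap).image Prod.fst = P.image Prod.snd := by
    rw [Finset.image_image]; rfl
  have e2 : (P.image Prod.swap).image Prod.snd = P.image Prod.fst := by
    rw [Finset.image_image]; rfl
  have e3 : ((P.image Prod.swap).filter (fun c => (c.1 + 1, c.2) ∈ P.image Prod.swap)).card
        = (P.filter (fun c => (c.1, c.2 + 1) ∈ P)).card := by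
      have : ((P.image Prod.swap).filter (fun c => (c.1 + 1, c.2) ∈ P.image Prod.swap))
        = (P.filter (fun c => (c.1, c.2 + 1) ∈ P)).image Prod.swap := by
        ext ⟨a, b⟩
        have hmem : ∀ a b : ℤ, (a, b) ∈ P.image Prod.swap ↔ (b, a) ∈ P := by
          intro a b
          simp
        rw [Finset.mem_filter, hmem, hmem, Finset.mem_image]
        constructor
        · rintro ⟨h1, h2⟩
          exact ⟨(b, a), Finset.mem_filter.mpr ⟨h1, h2⟩, rfl⟩
        · rintro ⟨⟨c, d⟩, h1, h2⟩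
          rw [Finset.mem_filter] at h1
          simp only [Prod.swap_prod_mk, Prod.mk.injEq] at h2
          obtain ⟨rfl, rfl⟩ := h2
          exact h1
      rw [this, Finset.card_image_of_injective _ Prod.swap_injective]
  rw [e0, e2, e3] at h2
  rw [e0, e1, e2] at h4
  exact arith _ _ _ _ _ d.edges h1 h2 h3 h4

/-! ### The example -/

/-- Each cell of the list, from the end on, is adjacent to a later one. -/
def Good : List (ℤ × ℤ) → Prop
  | [] => False
  | [_] => True
  | c :: d :: t => (∃ e ∈ d :: t, (c.1 = e.1 ∧ |c.2 - e.2| = 1) ∨ (c.2 = e.2 ∧ |c.1 - e.1| = 1))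
      ∧ Good (d :: t)

lemma connected_of_good : ∀ l : List (ℤ × ℤ), Good l →
    (cellGraph.induce {c | c ∈ l}).Connected
  | [], h => h.elim
  | [c], _ => by
    rw [SimpleGraph.connected_iff_exists_forall_reachable]
    refine ⟨⟨c, by simp⟩, ?_⟩
    rintro ⟨w, hw⟩
    have : w = c := by simpa using hw
    subst this
    exact SimpleGraph.Reachable.refl _
  | c :: d :: t, h => by
    obtain ⟨⟨e, he, hce⟩, hg⟩ := h
    have ih := connected_of_good (d :: t) hg
    rw [SimpleGraph.connected_iff_exists_forall_reachable]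
    have hsub : ({x | x ∈ d :: t} : Set (ℤ × ℤ)) ⊆ {x | x ∈ c :: d :: t} := by
      intro x hx
      exact List.mem_cons_of_mem _ hx
    refine ⟨⟨e, hsub he⟩, ?_⟩
    rintro ⟨w, hw⟩
    have hw' : w = c ∨ w ∈ d :: t := by
      simpa using hw
    rcases hw' with rfl | hw'
    · apply SimpleGraph.Adj.reachable
      exact cellGraph.symm.symm _ _ hce
    · have h1 := ih.preconnected ⟨e, he⟩ ⟨w, hw'⟩
      exact h1.map (cellGraph.induceHomOfLE hsub).toHom

/-- The cells of the example: the polyomino with rows (from height 4 down to height 0)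
`XX.XXX`, `.XXX.X`, `XX..X.`, `X.XXXX`, `XXX.X.`. -/
def cells : List (ℤ × ℤ) :=
  [(5,3), (5,4), (4,4), (3,4), (0,4), (3,3), (4,0), (4,2), (5,1), (1,4), (2,3), (4,1), (1,3),
    (3,1), (1,2), (2,1), (0,2), (2,0), (0,1), (1,0), (0,0)]

lemma cells_good : Good cells := by
  simp [cells, Good]

lemma example_polyomino : IsPolyomino cells.toFinset := by
  have h := connected_of_good cells cells_good
  have e : ((cells.toFinset : Finset (ℤ × ℤ)) : Set (ℤ × ℤ)) = {c | c ∈ cells} := by
    ext c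
    simp
  unfold IsPolyomino
  rw [e]
  exact h

lemma example_rows : ∀ b ∈ cells.toFinset.image Prod.snd, ∃ x ∈ cells.toFinset.image Prod.fst,
    ∃ y ∈ cells.toFinset.image Prod.fst, ∃ z ∈ cells.toFinset.image Prod.fst,
    x < y ∧ y < z ∧ (x, b) ∈ cells.toFinset ∧ (y, b) ∉ cells.toFinset ∧
      (z, b) ∈ cells.toFinset := by
  decide

lemma example_cols : ∀ a ∈ cells.toFinset.image Prod.fst, ∃ x ∈ cells.toFinset.image Prod.snd,
    ∃ y ∈ cells.toFinset.image Prod.snd, ∃ z ∈ cells.toFinset.image Prod.snd,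
    x < y ∧ y < z ∧ (a, x) ∈ cells.toFinset ∧ (a, y) ∉ cells.toFinset ∧
      (a, z) ∈ cells.toFinset := by
  decide

lemma example_S : PropertyS cells.toFinset := by
  constructor
  · rintro b ⟨a, hab⟩
    obtain ⟨x, -, y, -, z, -, h1, h2, h3, h4, h5⟩ :=
      example_rows b (Finset.mem_image.mpr ⟨(a, b), hab, rfl⟩)
    exact not_ordConnected_of_gap h1 h2 h3 h4 h5
  · rintro a ⟨b, hab⟩
    obtain ⟨x, -, y, -, z, -, h1, h2, h3, h4, h5⟩ :=
      example_cols a (Finset.mem_image.mpr ⟨(a, b), hab, rfl⟩)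
    exact not_ordConnected_of_gap h1 h2 h3 h4 h5

/-- The least number of cells of a polyomino none of whose nonempty rows and columns is a single
strip is `21`. -/
theorem result : IsLeast {n : ℕ | ∃ P : Finset (ℤ × ℤ), P.card = n ∧ IsPolyomino P ∧ PropertyS P}
    21 := by
  constructor
  · exact ⟨cells.toFinset, by decide, example_polyomino, example_S⟩
  · rintro n ⟨P, rfl, hP, hS⟩
    exact lower hP hS

end Pool.Agent.Results.MP_ae2f9f_co.LeastSize
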